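import Pool.Agent.Helper74.UB.Goals4

/-!
# UB, packet TOPT: counting above the fire, odd case
-/

set_option autoImplicit false

namespace Pool.Agent.Helper7.UB

open Finset Equiv Helper28.VF Pool.Agent.Helper74.UB
open scoped Classical

/-- On a cycle a predicate that holds somewhere and fails somewhere has a descent. -/
theorem zmod_step {N : ℕ} [NeZero N] (p : ZMod N → Prop) (h1 : ∃ i, p i) (h2 : ∃ i, ¬ p i) :
    ∃ i, p i ∧ ¬ p (i + 1) := by
  by_contra hcon
  push Not at hcon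
  obtain ⟨a, ha⟩ := h1
  obtain ⟨b, hb⟩ := h2
  have key : ∀ n : ℕ, p (a + (n : ZMod N)) := by
    intro n
    induction n with
    | zero => simpa using ha
    | succ n ih =>
      have := hcon _ ih
      rw [add_assoc] at this
      simpa using this
  apply hb
  have := key (b - a).val
  rw [ZMod.natCast_zmod_val] at this
  simpa using this

theorem instrip_unique {V D E F : Type} [Fintype V] [Fintype D] [Fintype E] [Fintype F]
    (M : PM D V E F) (row : V → ℤ) (d : D) (y z : ℤ) (h1 : InStrip M row d y)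
    (h2 : InStrip M row d z) : y = z := by
  obtain ⟨a1, ⟨e1, b1, c1⟩, ⟨e2, b2, c2⟩⟩ := h1
  obtain ⟨a2, ⟨e3, b3, c3⟩, ⟨e4, b4, c4⟩⟩ := h2
  have u1 := a2 e1 b1
  have u2 := a2 e2 b2
  omega

/-! ### Integer versions of the fields of `Flat` -/

section FlatZ

variable {V : Type} {L : Lay V} {N h : ℕ} {f : ℤ → ZMod N → V}

theorem flat_row (fl : Flat L N h f) (r : ℤ) (i : ZMod N) (h0 : 0 ≤ r) (h1 : r ≤ h) :
    L.row (f r i) = r := by
  lift r to ℕ using h0
  exact fl.row r i (by omega) (by exact_mod_cast h1)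

theorem flat_inj (fl : Flat L N h f) (r : ℤ) (i j : ZMod N) (h0 : 0 ≤ r) (h1 : r ≤ h)
    (h2 : f r i = f r j) : i = j := by
  lift r to ℕ using h0
  exact fl.inj r i j (by omega) (by exact_mod_cast h1) h2

theorem flat_e (fl : Flat L N h f) (r : ℤ) (i : ZMod N) (h0 : 0 ≤ r) (h1 : r ≤ h) :
    L.e (f r i) = f r (i + 1) := by
  lift r to ℕ using h0
  exact fl.e r i (by omega) (by exact_mod_cast h1)

theorem flat_upS (fl : Flat L N h f) (r : ℤ) (i : ZMod N) (k : V) (h0 : 0 ≤ r) (h1 : r < h)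
    (he : Even r) : L.up (f r i) k ↔ k = f (r + 1) i := by
  lift r to ℕ using h0
  exact fl.upS r i k (by omega) (by exact_mod_cast h1) (by exact_mod_cast he)

theorem flat_upT (fl : Flat L N h f) (r : ℤ) (i : ZMod N) (k : V) (h0 : 0 ≤ r) (h1 : r < h)
    (he : ¬ Even r) : L.up (f r i) k ↔ k = f (r + 1) i ∨ k = f (r + 1) (i + 1) := by
  lift r to ℕ using h0
  exact fl.upT r i k (by omega) (by exact_mod_cast h1) (by exact_mod_cast he)

end FlatZ

theorem topt (hSq : StmtSq) (hTri : StmtTriF) (hStrip : StmtStrip) (hCA : StmtConeAd)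
    (hCS : StmtConeSmall) (hHS : StmtHSmall) (hLA : StmtLayAd) : StmtTopT := by
  intro K h V D E F E' F' _ _ _ _ _ _ L f M dE dW dU dN I M' O Q A t H hodd
  have : NeZero (3 * 2 ^ K) := ⟨by positivity⟩
  obtain ⟨sE, sW, sUN, sFA, s34, sT4⟩ := hStrip K h V D E F L f M dE dW dU dN H.host H.lm
  obtain ⟨cAd, -, -, -, cT1, -⟩ := hCA D V E F E' F' M I M' H.cone
  obtain ⟨smallM, -⟩ := hHS K h V D E F L f M dE dW dU dN H.host H.lm
  obtain ⟨-, -, cS1, -⟩ := hCS D V E F E' F' M I M' H.cone smallM (fun d hd => (H.sq d hd).1)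
  obtain ⟨lAd, -, -⟩ := hLA V D E F L M dE dW dU dN H.host.ax H.lm
  have fl := H.host.flat
  have lm := H.lm
  have t0 := H.t0
  have t2 := H.t2
  have hr0 := H.host.r0
  have ev1 : Even (t + 1) := by
    rcases Int.even_or_odd t with h1 | h1
    · exact absurd h1 hodd
    · exact h1.add_odd odd_one
  -- rows
  have rowt : ∀ i, L.row (f t i) = t := fun i => flat_row fl t i (by omega) (by omega)
  have rowt1 : ∀ i, L.row (f (t + 1) i) = t + 1 := fun i => flat_row fl (t + 1) i (by omega) (by omega)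
  have rowt2 : ∀ i, L.row (f (t + 2) i) = t + 2 := fun i => flat_row fl (t + 2) i (by omega) (by omega)
  -- membership facts
  have nO2 : ∀ i, (Sum.inl (f (t + 2) i) : VC V I) ∉ O := by
    intro i hi
    have := H.rQ _ (H.sub hi)
    rw [rowt2] at this
    omega
  have nA2 : ∀ i, (Sum.inl (f (t + 2) i) : VC V I) ∉ A := by
    intro i hi
    have := H.rA _ hi
    rw [rowt2] at this
    omega
  have nA1 : ∀ i, (Sum.inl (f (t + 1) i) : VC V I) ∉ A := by
    intro i hi
    have := H.rA _ hi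
    rw [rowt1] at this
    omega
  -- adjacency upwards
  have upa : ∀ i, L.up (f t i) (f (t + 1) i) := fun i =>
    (flat_upT fl t i _ (by omega) (by omega) hodd).2 (Or.inl rfl)
  have upb : ∀ i, L.up (f t i) (f (t + 1) (i + 1)) := fun i =>
    (flat_upT fl t i _ (by omega) (by omega) hodd).2 (Or.inr rfl)
  have upc : ∀ i, L.up (f (t + 1) i) (f (t + 2) i) := fun i => by
    have := (flat_upS fl (t + 1) i (f (t + 1 + 1) i) (by omega) (by omega) ev1).2 rfl
    rwa [show t + 1 + 1 = t + 2 by ring] at this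
  have aW : ∀ v, M.α (dW v) = dE v := fun v => by rw [← lm.aE, M.α_inv]
  have aN : ∀ v k, L.up v k → M.α (dN v k) = dU v k := fun v k hk => by
    rw [← lm.aU v k hk, M.α_inv]
  have tgE : ∀ v, tg M (dE v) = L.e v := fun v => by
    unfold tg; rw [lm.aE, lm.vW]
  have tgW : ∀ v, tg M (dW v) = v := fun v => by
    unfold tg; rw [aW, lm.vE]
  have tgU : ∀ v k, L.up v k → tg M (dU v k) = k := fun v k hk => by
    unfold tg; rw [lm.aU v k hk, lm.vN v k hk]
  have tgN : ∀ v k, L.up v k → tg M (dN v k) = v := fun v k hk => by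
    unfold tg; rw [aN v k hk, lm.vU v k hk]
  -- no faces of I in the strips t, t + 1
  have nI1 : ∀ d, InStrip M L.row d (t + 1) → ¬ I (M.fc d) := by
    intro d hd hI
    obtain ⟨-, y, hy, hs⟩ := H.sq d hI
    have := instrip_unique M L.row d _ _ hd hs
    omega
  have nI0 : ∀ d, InStrip M L.row d t → ¬ I (M.fc d) := by
    intro d hd hI
    obtain ⟨h4, -, -, -⟩ := H.sq d hI
    obtain ⟨y, -, -, hev, hs⟩ := (sT4 d).1 h4
    have := instrip_unique M L.row d _ _ hd hs
    rw [this] at hodd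
    exact hodd hev
  -- criterion for nb
  have innb : ∀ d, ¬ I (M.fc d) → (∃ e, M.fc e = M.fc d ∧ (Sum.inl (M.vt e) : VC V I) ∈ O) →
      (Sum.inl (M.vt d) : VC V I) ∉ O → (Sum.inl (tg M d) : VC V I) ∉ O →
      ((Sum.inl (M.vt d) : VC V I) ∉ A ∨ (Sum.inl (tg M d) : VC V I) ∉ A) →
      (Sum.inl d : DC M I) ∈ nb M' O A := by
    intro d hI he h1 h2 h3
    have e1 : M'.vt (Sum.inl d) = Sum.inl (M.vt d) := H.cone.vl d
    have e2 : tg M' (Sum.inl d) = Sum.inl (tg M d) := by
      unfold tg; rw [H.cone.al, H.cone.vl]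
    unfold nb bd Bd
    simp only [mem_filter, mem_univ, true_and]
    rw [e1, e2]
    refine ⟨⟨(cT1 d hI O).2 he, h1, h2⟩, ?_⟩
    rintro ⟨h4, h5⟩
    rcases h3 with h3 | h3
    · exact h3 h4
    · exact h3 h5
  obtain ⟨x₀, hx0A, hx0O⟩ := H.hd
  obtain ⟨xc, hxc'⟩ := H.col
  have hxc : ∀ r : ℤ, 0 ≤ r → r ≤ h → (Sum.inl (f r xc) : VC V I) ∉ O := by
    intro r h0 h1
    lift r to ℕ using h0
    exact hxc' r (by omega) (by exact_mod_cast h1)
  have hc0 : (Sum.inl (f t xc) : VC V I) ∉ O := hxc t (by omega) (by omega)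
  have hc1 : (Sum.inl (f (t + 1) xc) : VC V I) ∉ O := hxc (t + 1) (by omega) (by omega)
  -- faces
  have sq := fun i => hSq K h V D E F L f M dE dW dU dN H.host H.lm (t + 1) i (by omega)
    (by omega) ev1
  have tri := fun i => hTri K h V D E F L f M dE dW dU dN H.host H.lm t i (by omega)
    (by omega) hodd
  have e12 : t + 1 + 1 = t + 2 := by ring
  simp only [e12] at sq
  -- strip t + 1
  have stW : ∀ i, InStrip M L.row (dW (f (t + 2) i)) (t + 1) := by
    intro i
    have := sW (f (t + 2) i) (by rw [rowt2, hr0]; omega)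
    rw [rowt2] at this
    rwa [show t + 2 - 1 = t + 1 by ring] at this
  have stU1 : ∀ i, InStrip M L.row (dU (f (t + 1) i) (f (t + 2) i)) (t + 1) := fun i => by
    have := (sUN _ _ (upc i)).1
    rwa [rowt1] at this
  have stN1 : ∀ i, InStrip M L.row (dN (f (t + 1) i) (f (t + 2) i)) (t + 1) := fun i => by
    have := (sUN _ _ (upc i)).2
    rwa [rowt1] at this
  set s : ZMod (3 * 2 ^ K) → Prop := fun i => (Sum.inl (f (t + 1) i) : VC V I) ∈ O with hs
  have hex : ∃ i, s i := ⟨x₀, hx0O⟩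
  have hnex : ∃ i, ¬ s i := ⟨xc, hc1⟩
  obtain ⟨i1, hi1, hi1'⟩ := zmod_step s hex hnex
  obtain ⟨i2, hi2, hi2'⟩ := zmod_step (fun i => ¬ s i) hnex (by
    obtain ⟨i, hi⟩ := hex
    exact ⟨i, not_not.2 hi⟩)
  rw [not_not] at hi2'
  -- darts of type W
  have nbW : ∀ i, s i ∨ s (i + 1) → (Sum.inl (dW (f (t + 2) i)) : DC M I) ∈ nb M' O A := by
    intro i hi
    apply innb _ (nI1 _ (stW i))
    · rcases hi with hi | hi
      · refine ⟨dE (f (t + 1) i), ?_, ?_⟩
        · exact (((sq i).2 _).2 (Or.inr (Or.inr (Or.inl rfl)))).symm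
        · rw [lm.vE]; exact hi
      · refine ⟨dU (f (t + 1) (i + 1)) (f (t + 2) (i + 1)), ?_, ?_⟩
        · rw [((sq i).2 _).2 (Or.inr (Or.inr (Or.inl rfl))),
            ((sq i).2 _).2 (Or.inr (Or.inl rfl))]
        · rw [lm.vU _ _ (upc _)]; exact hi
    · rw [lm.vW, flat_e fl (t + 2) i (by omega) (by omega)]
      exact nO2 _
    · rw [tgW]; exact nO2 _
    · right; rw [tgW]; exact nA2 _
  have nbU1 : (Sum.inl (dU (f (t + 1) (i1 + 1)) (f (t + 2) (i1 + 1))) : DC M I) ∈ nb M' O A := by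
    apply innb _ (nI1 _ (stU1 _))
    · refine ⟨dE (f (t + 1) i1), ?_, ?_⟩
      · exact (((sq i1).2 _).2 (Or.inr (Or.inl rfl))).symm
      · rw [lm.vE]; exact hi1
    · rw [lm.vU _ _ (upc _)]; exact hi1'
    · rw [tgU _ _ (upc _)]; exact nO2 _
    · right; rw [tgU _ _ (upc _)]; exact nA2 _
  have nbN1 : (Sum.inl (dN (f (t + 1) i2) (f (t + 2) i2)) : DC M I) ∈ nb M' O A := by
    apply innb _ (nI1 _ (stN1 _))
    · refine ⟨dU (f (t + 1) (i2 + 1)) (f (t + 2) (i2 + 1)), ?_, ?_⟩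
      · rw [((sq i2).2 _).2 (Or.inr (Or.inr (Or.inr rfl))),
            ((sq i2).2 _).2 (Or.inr (Or.inl rfl))]
      · rw [lm.vU _ _ (upc _)]; exact hi2'
    · rw [lm.vN _ _ (upc _)]; exact nO2 _
    · rw [tgN _ _ (upc _)]; exact hi2
    · left; rw [lm.vN _ _ (upc _)]; exact nA2 _
  -- strip t, darts of type U
  have stU0 : ∀ v k, L.up v k → L.row v = t → InStrip M L.row (dU v k) t ∧
      InStrip M L.row (dN v k) t := fun v k hk hv => by
    have := sUN _ _ hk
    rwa [hv] at this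
  set b0 : ZMod (3 * 2 ^ K) → Prop := fun i =>
    (Sum.inl (f t i) : VC V I) ∈ O ∨ (Sum.inl (f (t + 1) i) : VC V I) ∈ O with hb0
  set b1 : ZMod (3 * 2 ^ K) → Prop := fun i =>
    (Sum.inl (f t i) : VC V I) ∈ O ∨ (Sum.inl (f (t + 1) (i + 1)) : VC V I) ∈ O with hb1
  have hb0e : ∃ i, b0 i := ⟨x₀, Or.inr hx0O⟩
  have hb0n : ∃ i, ¬ b0 i := ⟨xc, by rintro (h1 | h1); exacts [hc0 h1, hc1 h1]⟩
  obtain ⟨dU0, stdU0, nbU0, rU0v, rU0t⟩ : ∃ d, InStrip M L.row d t ∧
      (Sum.inl d : DC M I) ∈ nb M' O A ∧ L.row (M.vt d) = t ∧ L.row (tg M d) = t + 1 := by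
    obtain ⟨i, hi, hi'⟩ := zmod_step b0 hb0e hb0n
    simp only [hb0, not_or] at hi'
    obtain ⟨hi'1, hi'2⟩ := hi'
    by_cases hti : (Sum.inl (f t i) : VC V I) ∈ O
    · refine ⟨dU (f t (i + 1)) (f (t + 1) (i + 1)), (stU0 _ _ (upa _) (rowt _)).1, ?_, ?_, ?_⟩
      · apply innb _ (nI0 _ (stU0 _ _ (upa _) (rowt _)).1)
        · refine ⟨dE (f t i), ?_, ?_⟩
          · exact (((tri i).1.2 _).2 (Or.inr (Or.inl rfl))).symm
          · rw [lm.vE]; exact hti
        · rw [lm.vU _ _ (upa _)]; exact hi'1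
        · rw [tgU _ _ (upa _)]; exact hi'2
        · right; rw [tgU _ _ (upa _)]; exact nA1 _
      · rw [lm.vU _ _ (upa _)]; exact rowt _
      · rw [tgU _ _ (upa _)]; exact rowt1 _
    · have hi2 : (Sum.inl (f (t + 1) i) : VC V I) ∈ O := by
        rcases hi with hi | hi
        · exact absurd hi hti
        · exact hi
      refine ⟨dU (f t i) (f (t + 1) (i + 1)), (stU0 _ _ (upb _) (rowt _)).1, ?_, ?_, ?_⟩
      · apply innb _ (nI0 _ (stU0 _ _ (upb _) (rowt _)).1)
        · refine ⟨dN (f t i) (f (t + 1) i), ?_, ?_⟩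
          · rw [((tri i).2.2 _).2 (Or.inr (Or.inl rfl)), ((tri i).2.2 _).2 (Or.inr (Or.inr rfl))]
          · rw [lm.vN _ _ (upa _)]; exact hi2
        · rw [lm.vU _ _ (upb _)]; exact hti
        · rw [tgU _ _ (upb _)]; exact hi'2
        · right; rw [tgU _ _ (upb _)]; exact nA1 _
      · rw [lm.vU _ _ (upb _)]; exact rowt _
      · rw [tgU _ _ (upb _)]; exact rowt1 _
  obtain ⟨dN0, stdN0, nbN0, rN0v, rN0t⟩ : ∃ d, InStrip M L.row d t ∧
      (Sum.inl d : DC M I) ∈ nb M' O A ∧ L.row (M.vt d) = t + 1 ∧ L.row (tg M d) = t := by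
    obtain ⟨i, hi, hi'⟩ := zmod_step (fun i => ¬ b0 i) hb0n (by
      obtain ⟨i, hi⟩ := hb0e
      exact ⟨i, not_not.2 hi⟩)
    rw [not_not] at hi'
    simp only [hb0, not_or] at hi
    obtain ⟨hi1, hi2⟩ := hi
    by_cases hti : (Sum.inl (f (t + 1) (i + 1)) : VC V I) ∈ O
    · refine ⟨dN (f t i) (f (t + 1) i), (stU0 _ _ (upa _) (rowt _)).2, ?_, ?_, ?_⟩
      · apply innb _ (nI0 _ (stU0 _ _ (upa _) (rowt _)).2)
        · refine ⟨dW (f (t + 1) i), ?_, ?_⟩
          · exact (((tri i).2.2 _).2 (Or.inr (Or.inl rfl))).symm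
          · rw [lm.vW, flat_e fl (t + 1) i (by omega) (by omega)]; exact hti
        · rw [lm.vN _ _ (upa _)]; exact hi2
        · rw [tgN _ _ (upa _)]; exact hi1
        · left; rw [lm.vN _ _ (upa _)]; exact nA1 _
      · rw [lm.vN _ _ (upa _)]; exact rowt1 _
      · rw [tgN _ _ (upa _)]; exact rowt _
    · have hi3 : (Sum.inl (f t (i + 1)) : VC V I) ∈ O := by
        rcases hi' with hi' | hi'
        · exact hi'
        · exact absurd hi' hti
      refine ⟨dN (f t i) (f (t + 1) (i + 1)), (stU0 _ _ (upb _) (rowt _)).2, ?_, ?_, ?_⟩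
      · apply innb _ (nI0 _ (stU0 _ _ (upb _) (rowt _)).2)
        · refine ⟨dU (f t (i + 1)) (f (t + 1) (i + 1)), ?_, ?_⟩
          · rw [((tri i).1.2 _).2 (Or.inr (Or.inl rfl)), ((tri i).1.2 _).2 (Or.inr (Or.inr rfl))]
          · rw [lm.vU _ _ (upa _)]; exact hi3
        · rw [lm.vN _ _ (upb _)]; exact hti
        · rw [tgN _ _ (upb _)]; exact hi1
        · left; rw [lm.vN _ _ (upb _)]; exact nA1 _
      · rw [lm.vN _ _ (upb _)]; exact rowt1 _
      · rw [tgN _ _ (upb _)]; exact rowt _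
  -- the pair
  have nIe : ¬ I (M.fc (dE (f (t + 1) x₀))) := by
    apply nI1
    have := sE (f (t + 1) x₀) (by rw [rowt1, H.host.r1]; omega)
    rwa [rowt1] at this
  have hpO : (Sum.inl (f (t + 1) (x₀ + 1)) : VC V I) ∈ O := by
    apply H.closed _ hx0O
    · apply H.ev _ hx0A
      · rw [cAd, lAd]
        exact Or.inr (Or.inr (Or.inl (upb x₀)))
      · exact rowt1 _
    · refine ⟨Sum.inl (dE (f (t + 1) x₀)),
        Sum.inl (dU (f (t + 1) (x₀ + 1)) (f (t + 2) (x₀ + 1))), ?_, ?_, ?_⟩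
      · symm
        rw [H.cone.fo _ nIe]
        exact ⟨_, rfl, ((sq x₀).2 _).2 (Or.inr (Or.inl rfl))⟩
      · rw [H.cone.vl, lm.vE]
      · rw [H.cone.vl, lm.vU _ _ (upc _)]
  have hSqE : SqE M' (Sum.inl (f (t + 1) x₀)) (Sum.inl (f (t + 1) (x₀ + 1))) := by
    refine ⟨Sum.inl (dE (f (t + 1) x₀)), ?_, Or.inl ⟨?_, ?_⟩⟩
    · exact (cS1 _ nIe).2.2 (sq x₀).1
    · rw [H.cone.vl, lm.vE]
    · unfold tg
      rw [H.cone.al, H.cone.vl, lm.aE, lm.vW, flat_e fl (t + 1) x₀ (by omega) (by omega)]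
  -- the sets
  set S1 : Finset D := (univ.filter fun i => s i ∨ s (i + 1)).image
    (fun i => dW (f (t + 2) i)) with hS1
  have cS1' : nr L.row O (t + 1) + 1 ≤ S1.card := by
    have h1 : S1.card = (univ.filter fun i => s i ∨ s (i + 1)).card := by
      apply card_image_of_injective
      intro i j hij
      have h2 : tg M (dW (f (t + 2) i)) = tg M (dW (f (t + 2) j)) := congrArg _ hij
      rw [tgW, tgW] at h2
      exact flat_inj fl (t + 2) i j (by omega) (by omega) h2
    have h2 : (univ.filter fun i => s i).card < (univ.filter fun i => s i ∨ s (i + 1)).card := by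
      apply card_lt_card
      rw [ssubset_iff_of_subset]
      · refine ⟨i2, ?_, ?_⟩
        · simp only [mem_filter, mem_univ, true_and]
          exact Or.inr hi2'
        · simp only [mem_filter, mem_univ, true_and]
          exact hi2
      · intro i hi
        simp only [mem_filter, mem_univ, true_and] at hi ⊢
        exact Or.inl hi
    have h3 : nr L.row O (t + 1) ≤ (univ.filter fun i => s i).card := by
      unfold nr
      refine (card_le_card ?_).trans (card_image_le (s := univ.filter fun i => s i)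
        (f := fun i => f (t + 1) i))
      intro v hv
      simp only [mem_filter, mem_univ, true_and] at hv
      obtain ⟨hv1, hv2⟩ := hv
      obtain ⟨i, hi⟩ := fl.surj v (by omega) (by omega)
      rw [hv2] at hi
      simp only [mem_image, mem_filter, mem_univ, true_and]
      exact ⟨i, by rw [hs]; simpa only [hi] using hv1, hi⟩
    omega
  have kW : ∀ x ∈ S1, L.row (M.vt x) = t + 2 ∧ L.row (tg M x) = t + 2 := by
    intro x hx
    simp only [hS1, mem_image, mem_filter, mem_univ, true_and] at hx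
    obtain ⟨i, -, rfl⟩ := hx
    rw [lm.vW, tgW, flat_e fl (t + 2) i (by omega) (by omega)]
    exact ⟨rowt2 _, rowt2 _⟩
  have kU1v : L.row (M.vt (dU (f (t + 1) (i1 + 1)) (f (t + 2) (i1 + 1)))) = t + 1 := by
    rw [lm.vU _ _ (upc _)]; exact rowt1 _
  have kU1t : L.row (tg M (dU (f (t + 1) (i1 + 1)) (f (t + 2) (i1 + 1)))) = t + 2 := by
    rw [tgU _ _ (upc _)]; exact rowt2 _
  have kN1v : L.row (M.vt (dN (f (t + 1) i2) (f (t + 2) i2))) = t + 2 := by
    rw [lm.vN _ _ (upc _)]; exact rowt2 _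
  have kN1t : L.row (tg M (dN (f (t + 1) i2) (f (t + 2) i2))) = t + 1 := by
    rw [tgN _ _ (upc _)]; exact rowt1 _
  generalize hdU1 : dU (f (t + 1) (i1 + 1)) (f (t + 2) (i1 + 1)) = dU1 at nbU1 kU1v kU1t
  generalize hdN1 : dN (f (t + 1) i2) (f (t + 2) i2) = dN1 at nbN1 kN1v kN1t
  have stdU1 : InStrip M L.row dU1 (t + 1) := hdU1 ▸ stU1 _
  have stdN1 : InStrip M L.row dN1 (t + 1) := hdN1 ▸ stN1 _
  refine ⟨insert dU0 (insert dN0 (insert dU1 (insert dN1 S1))),
    {(f (t + 1) x₀, f (t + 1) (x₀ + 1))}, ?_, ?_, ?_, ?_, ?_, ?_⟩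
  · intro d hd
    simp only [mem_insert] at hd
    rcases hd with rfl | rfl | rfl | rfl | hd
    · exact ⟨nbU0, Or.inl stdU0⟩
    · exact ⟨nbN0, Or.inl stdN0⟩
    · exact ⟨nbU1, Or.inr stdU1⟩
    · exact ⟨nbN1, Or.inr stdN1⟩
    · simp only [hS1, mem_image, mem_filter, mem_univ, true_and] at hd
      obtain ⟨i, hi, rfl⟩ := hd
      exact ⟨nbW i hi, Or.inr (stW i)⟩
  · intro p hp
    rw [mem_singleton] at hp
    subst hp
    exact ⟨hx0O, hpO, hSqE⟩
  · intro he
    exact absurd he hodd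
  · intro _ p hp
    rw [mem_singleton] at hp
    subst hp
    exact ⟨rowt1 _, rowt1 _⟩
  · intro p hp q hq hpq
    rw [mem_singleton] at hp hq
    exact absurd (hp.trans hq.symm) hpq
  · have m1 : dN1 ∉ S1 := by
      intro hm
      have := (kW _ hm).2
      omega
    have m2 : dU1 ∉ insert dN1 S1 := by
      intro hm
      rw [mem_insert] at hm
      rcases hm with hm | hm
      · rw [hm] at kU1v; omega
      · have := (kW _ hm).1
        omega
    have m3 : dN0 ∉ insert dU1 (insert dN1 S1) := by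
      intro hm
      rw [mem_insert, mem_insert] at hm
      rcases hm with hm | hm | hm
      · rw [hm] at rN0t; omega
      · rw [hm] at rN0v; omega
      · have := (kW _ hm).1
        omega
    have m4 : dU0 ∉ insert dN0 (insert dU1 (insert dN1 S1)) := by
      intro hm
      rw [mem_insert, mem_insert, mem_insert] at hm
      rcases hm with hm | hm | hm | hm
      · rw [hm] at rU0v; omega
      · rw [hm] at rU0v; omega
      · rw [hm] at rU0v; omega
      · have := (kW _ hm).1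
        omega
    rw [card_insert_of_notMem m4, card_insert_of_notMem m3, card_insert_of_notMem m2,
      card_insert_of_notMem m1, card_singleton]
    omega

end Pool.Agent.Helper7.UB
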